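import Mathlib
import Pool.Agent.Lib.MP_c05f88_an.Defs
import Pool.Agent.Lib.MP_c05f88_an.Main

namespace Pool.Agent.Results.MP_c05f88_an.ClosedDiscrete

open Pool.Agent.Lib.MP_c05f88_an
open Set Filter Topology Manifold

/-- **Permutable sets are closed and discrete, and their co-infinite subsets are tame.**
Let `X` be a complex manifold and `Z ⊆ X` a set all of whose bijections extend to holomorphic automorphisms of `X`. Then `Z` is closed and discrete
in `X`, and every infinite subset `A` of `Z` with infinite complement in `Z` is tame. -/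
theorem result {E : Type*} [NormedAddCommGroup E] [NormedSpace ℂ E] [FiniteDimensional ℂ E]
    {X : Type*} [TopologicalSpace X] [T2Space X] [SecondCountableTopology X] [ChartedSpace E X] [IsManifold 𝓘(ℂ, E) 1 X]
    {Z : Set X} (hZ : Permutable E Z) :
    IsClosed Z ∧ DiscreteTopology Z ∧ ∀ A ⊆ Z, A.Infinite → (Z \ A).Infinite → Tame E A :=
  ⟨(closed_discrete_general hZ Subset.rfl).1, (closed_discrete_general hZ Subset.rfl).2,
    fun _ hA hAi hc => coinfinite_general hZ hA hAi hc⟩

end Pool.Agent.Results.MP_c05f88_an.ClosedDiscrete
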