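import Mathlib
import Pool.Agent.Lib.MP_c05f88_an.Defs
import Pool.Agent.Lib.MP_c05f88_an.Main

namespace Pool.Agent.Results.MP_c05f88_an.InjectionsExtend

open Pool.Agent.Lib.MP_c05f88_an
open Set Filter Topology Manifold

/-- **Every injective self-map of a permutable set extends to an injective holomorphic map.**
Let `X` be a complex manifold and `Z ⊆ X` an infinite set all of whose bijections extend to holomorphic automorphisms of `X`. Then every injective
map `f : Z → Z` extends to a holomorphic map `Φ : X → X` which is a homeomorphism onto an open subset of `X`, satisfies `Φ(X) ∩ Z = f(Z)`, and is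
the limit, uniformly on compact sets, of automorphisms of `X` mapping `Z` onto `Z`. -/
theorem result {E : Type*} [NormedAddCommGroup E] [NormedSpace ℂ E] [FiniteDimensional ℂ E]
    {X : Type*} [TopologicalSpace X] [T2Space X] [SecondCountableTopology X] [ChartedSpace E X] [IsManifold 𝓘(ℂ, E) 1 X]
    {Z : Set X} (hinf : Z.Infinite) (hZ : Permutable E Z) {f : Z → Z} (hf : Function.Injective f) :
    ∃ Φ : C(X, X), Hol E Φ ∧ IsOpenEmbedding Φ ∧ (∀ z : Z, Φ z = f z) ∧ (∀ z : Z, (z : X) ∈ range Φ → z ∈ range f) ∧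
      ∃ P : ℕ → C(X, X), (∀ k, ∃ F : X ≃ X, IsAut E F ∧ F '' Z = Z ∧ ⇑(P k) = ⇑F) ∧ Tendsto P atTop (𝓝 Φ) :=
  injection_general hinf hZ hf

end Pool.Agent.Results.MP_c05f88_an.InjectionsExtend
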