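import Pool.Agent.Lib.MP_c05f88_an.Inj
import Pool.Agent.Lib.MP_c05f88_an.Vec

/-!
# Injections which fix finitely many points extend to maps near the identity
-/

set_option autoImplicit false

namespace Pool.Agent.Results.MP_c05f88_an.NearIdentity

open Set Filter Topology Metric
open Pool.Agent.Lib.MP_c05f88_an

/-- `Φ` is an extension of the self-map `j` of `Z` to an injective and open holomorphic map
of `E` into `E` which maps no point outside of `Z` into `Z` and which is a locally uniform limit of
holomorphic automorphisms of `E` which map `Z` onto `Z`. -/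
structure Extends {E : Type*} [NormedAddCommGroup E] [NormedSpace ℂ E] (Z : Set E) (j : Z → Z)
    (Φ : E → E) : Prop where
  diff : Differentiable ℂ Φ
  inj : Function.Injective Φ
  openMap : IsOpenMap Φ
  ext : ∀ z : Z, Φ z = j z
  pre : ∀ x, Φ x ∈ Z → x ∈ Z
  lim : ∃ F : ℕ → E ≃ E, (∀ k, Differentiable ℂ (F k) ∧ Differentiable ℂ (F k).symm ∧
      ∀ x, F k x ∈ Z ↔ x ∈ Z) ∧ ∀ R : ℝ, TendstoUniformlyOn (fun k => F k) Φ atTop (closedBall 0 R)

/-- Let `E` be a finite dimensional complex vector space and `Z` an infinite subset of `E` all of whose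
bijections are restrictions of holomorphic automorphisms of `E`. For every ball of `E` there is a
finite subset `S` of `Z` such that every injective map `j : Z → Z` which fixes the points of `S` is the
restriction of an injective holomorphic map `Φ` with the properties above which is as near to the
identity on the ball as we like; and if `j` is bijective it is the restriction of an
automorphism which, together with its inverse, is as near to the identity on the ball as we like. -/
theorem result {E : Type*} [NormedAddCommGroup E] [NormedSpace ℂ E] [FiniteDimensional ℂ E]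
    (Z : Set E) (hinf : Z.Infinite)
    (hZ : ∀ f : Z ≃ Z, ∃ F : E ≃ E, Differentiable ℂ F ∧ Differentiable ℂ F.symm ∧
      ∀ z : Z, F z = f z) (R : ℝ) :
    ∃ S : Set Z, S.Finite ∧ ∀ ε : ℝ, 0 < ε → ∀ j : Z → Z, Function.Injective j →
      (∀ z ∈ S, j z = z) →
      (∃ Φ : E → E, Extends Z j Φ ∧ ∀ x, ‖x‖ ≤ R → ‖Φ x - x‖ < ε) ∧
      (Function.Surjective j → ∃ F : E ≃ E, Differentiable ℂ F ∧ Differentiable ℂ F.symm ∧
        (∀ z : Z, F z = j z) ∧ ∀ x, ‖x‖ ≤ R → ‖F x - x‖ < ε ∧ ‖F.symm x - x‖ < ε) := by
  obtain ⟨hcl, hd⟩ := AutPerm.closed_discrete hZ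
  obtain ⟨S, hS, h1⟩ := injection_near hinf hcl hd hZ R
  refine ⟨S, hS, fun ε hε j hj hjS => ⟨?_, fun hsur => ?_⟩⟩
  · obtain ⟨Φ, h, h2⟩ := (h1 ε hε).2 j hj hjS
    exact ⟨Φ, ⟨h.diff, h.inj, h.openMap, h.ext, h.pre, h.lim⟩, h2⟩
  · exact (h1 ε hε).1 (Equiv.ofBijective j ⟨hj, hsur⟩) hjS

end Pool.Agent.Results.MP_c05f88_an.NearIdentity
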