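import Pool.Agent.Lib.MP_c05f88_an.Basic

/-!
# A criterion for tameness of sets all of whose bijections extend
-/

set_option autoImplicit false

namespace Pool.Agent.Results.MP_c05f88_an.TameCriterion

open Set
open scoped Manifold ContDiff
open Pool.Agent.Lib.MP_c05f88_an

/-- Let `X` be a complex manifold and let `Z` be a subset of `X` such that every bijection `Z → Z` is
the restriction of a holomorphic automorphism of `X`. Let `A` be an infinite subset of `Z` (for example
`A = Z`). Then the following are equivalent: `A` is tame; some automorphism `F` of `X` maps `A`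
into `Z` so that `Z \ F(A)` is infinite; `A` is contained in a set `Z'` all of whose bijections extend
and `Z' \ A` is infinite. In particular (`F` the identity) `A` is tame if `Z \ A` is infinite. -/
theorem result {E : Type*} [NormedAddCommGroup E] [NormedSpace ℂ E]
    {X : Type*} [TopologicalSpace X] [ChartedSpace E X] [T2Space X] [SecondCountableTopology X]
    [IsManifold 𝓘(ℂ, E) ω X] (Z : Set X) (hZ : Permutable E Z) (A : Set X) (hAZ : A ⊆ Z)
    (hinf : A.Infinite) :
    [Tame E A,
      ∃ F : X ≃ₘ^ω⟮𝓘(ℂ, E), 𝓘(ℂ, E)⟯ X, F '' A ⊆ Z ∧ (Z \ F '' A).Infinite,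
      ∃ Z' : Set X, A ⊆ Z' ∧ (Z' \ A).Infinite ∧ Permutable E Z'].TFAE := by
  have hcount : Countable Z := hZ.countable
  tfae_have 1 → 2 := by
    rintro ⟨-, -, -, h⟩
    have i1 : Infinite A := hinf.to_subtype
    have i2 : Countable A := (Set.countable_coe_iff.mp hcount).mono hAZ |>.to_subtype
    obtain ⟨d⟩ := nonempty_denumerable A
    let e : A ≃ ℕ := Denumerable.eqv A
    obtain ⟨F, hF⟩ := h (fun z => e.symm (2 * e z)) (fun a b hab => by
      have h1 := e.symm.injective hab
      exact e.injective (by omega))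
    refine ⟨F, ?_, ?_⟩
    · rintro _ ⟨z, hz, rfl⟩
      rw [hF ⟨z, hz⟩]
      exact hAZ (Subtype.coe_prop _)
    · have h2 : (range fun n : ℕ => ((e.symm (2 * n + 1) : A) : X)).Infinite := by
        refine infinite_range_of_injective fun a b hab => ?_
        have h3 := e.symm.injective (Subtype.ext hab)
        omega
      refine h2.mono ?_
      rintro _ ⟨n, rfl⟩
      refine ⟨hAZ (Subtype.coe_prop _), ?_⟩
      rintro ⟨z, hz, h3⟩
      rw [hF ⟨z, hz⟩] at h3
      have h4 := e.symm.injective (Subtype.ext h3)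
      omega
  tfae_have 2 → 3 := by
    rintro ⟨F, hF, hco⟩
    have hsub : A ⊆ F.symm '' Z := by
      intro z hz
      exact ⟨F z, hF ⟨z, hz, rfl⟩, F.symm_apply_apply z⟩
    refine ⟨F.symm '' Z, hsub, ?_, ?_⟩
    · have h1 : F.symm '' (Z \ F '' A) ⊆ F.symm '' Z \ A := by
        rintro _ ⟨z, ⟨hz, hz2⟩, rfl⟩
        refine ⟨⟨z, hz, rfl⟩, fun h3 => hz2 ⟨F.symm z, h3, F.apply_symm_apply z⟩⟩
      exact (hco.image F.symm.injective.injOn).mono h1
    · intro f
      let e : Z ≃ F.symm '' Z := Equiv.Set.image F.symm Z F.symm.injective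
      obtain ⟨G, hG⟩ := hZ ((e.trans f).trans e.symm)
      refine ⟨(F.trans G).trans F.symm, fun w => ?_⟩
      show F.symm (G (F w)) = f w
      have h1 : F (w : X) = (e.symm w : Z) := by
        have h2 : ((e (e.symm w) : F.symm '' Z) : X) = F.symm (e.symm w : Z) := rfl
        rw [Equiv.apply_symm_apply] at h2
        rw [h2]
        exact F.apply_symm_apply _
      rw [h1, hG]
      have h3 : ((e (e.symm (f w)) : F.symm '' Z) : X) = F.symm (e.symm (f w) : Z) := rfl
      rw [Equiv.apply_symm_apply] at h3
      rw [h3]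
      simp
  tfae_have 3 → 1 := by
    rintro ⟨Z', hsub, hco, hZ'⟩
    exact hZ'.tame hsub hinf hco
  tfae_finish

end Pool.Agent.Results.MP_c05f88_an.TameCriterion
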